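import Pool.Agent.MWN.StmtsA

/-!
# MWN, row NCT (helper30)
-/

namespace Pool.Agent.MWN.H30

open Pool.Agent.Helper14_MV Pool.Agent.Helper2_MV Pool.Agent.MVO Pool.Agent.MWL Pool.Agent.MWS
  Pool.Agent.MWF Pool.Agent.MWN

theorem count_split (N : ℕ) (f V : ℕ → List ℕ) (d : ℕ) (T : List ℕ) :
    (T.flatMap (hv N f V)).count d = (T.filter (fun c => !decide (N ≤ c))).count d +
      ((T.filter (fun c => decide (N ≤ c))).map
        (fun c => ((V (c - N)).flatMap f).count d)).sum := by
  induction T with
  | nil => simp
  | cons c T ih =>
    rw [List.flatMap_cons, List.count_append, ih]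
    by_cases hc : N ≤ c
    · rw [List.filter_cons_of_neg (by simp [hc]), List.filter_cons_of_pos (by simp [hc]),
        List.map_cons, List.sum_cons]
      have : hv N f V c = (V (c - N)).flatMap f := by
        unfold hv; rw [if_pos hc]
      rw [this]
      omega
    · rw [List.filter_cons_of_pos (by simp [hc]), List.filter_cons_of_neg (by simp [hc])]
      have : hv N f V c = [c] := by
        unfold hv; rw [if_neg hc]
      rw [this]
      have h2 : (c :: T.filter (fun c => !decide (N ≤ c))).count d =
          [c].count d + (T.filter (fun c => !decide (N ≤ c))).count d := by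
        rw [← List.count_append]; rfl
      rw [h2]
      omega

theorem count_two (f : ℕ → List ℕ) (d : ℕ) (l : List ℕ) (h : ∀ c ∈ l, c = 0 ∨ c = 1) :
    (l.flatMap f).count d = (f 0).count d * l.count 0 + (f 1).count d * l.count 1 := by
  induction l with
  | nil => simp
  | cons c l ih =>
    rw [List.flatMap_cons, List.count_append, ih (fun c hc => h c (List.mem_cons_of_mem _ hc))]
    rcases h c (by simp) with rfl | rfl
    · rw [List.count_cons_self, List.count_cons_of_ne (by decide)]
      ring
    · rw [List.count_cons_self, List.count_cons_of_ne (by decide)]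
      ring

theorem sum_range_filter (n : ℕ) (p : ℕ → Prop) [DecidablePred p] (F : ℕ → ℕ) :
    (((List.range n).filter (fun j => decide (p j))).map F).sum =
      ∑ i ∈ Finset.range n, if p i then F i else 0 := by
  induction n with
  | zero => simp
  | succ n ih =>
    rw [List.range_succ, List.filter_append, List.map_append, List.sum_append, ih,
      Finset.sum_range_succ]
    by_cases h : p n
    · rw [List.filter_cons_of_pos (by simp [h]), if_pos h]
      simp
    · rw [List.filter_cons_of_neg (by simp [h]), if_neg h]
      simp

theorem nct : NctStmt := by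
  intro k1 N f T g t hT d
  refine ⟨(T.filter (fun c => !decide (N ≤ c))).count d, ?_⟩
  intro V hV
  rw [count_split, hT, List.map_map]
  have h1 : ((fun c => ((V (c - N)).flatMap f).count d) ∘ fun j => N + j) =
      fun j => ((V j).flatMap f).count d := by
    funext j
    simp only [Function.comp_apply, Nat.add_sub_cancel_left]
  rw [h1, sum_range_filter, add_assoc]
  congr 1
  unfold psh ty
  rw [Finset.mul_sum, Finset.mul_sum, ← Finset.sum_add_distrib]
  apply Finset.sum_congr rfl
  intro j hj
  rw [Finset.mem_range] at hj
  by_cases h : g j = t
  · rw [if_pos h, if_pos h, if_pos h, count_two f d (V j) (hV j (by omega))]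
  · rw [if_neg h, if_neg h, if_neg h]
    simp

end Pool.Agent.MWN.H30
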