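import Pool.Agent.MWN.StmtsH

/-!
# MWN, row N4E (helper30)
-/

namespace Pool.Agent.MWN.H30E

open Pool.Agent.Helper14_MV Pool.Agent.Helper2_MV Pool.Agent.MVO Pool.Agent.MWL Pool.Agent.MWS
  Pool.Agent.MWF Pool.Agent.MWN

theorem okb_of {k : ℕ} {B : ℕ → List ℕ} (h : Two01 k B)
    (h0 : 2 ≤ deg k (fun j => (B j).count 0)) (h1 : 2 ≤ deg k (fun j => (B j).count 1)) :
    OkB k B := by
  refine ⟨?_, ?_⟩
  · intro j hj c hc hs
    rcases h j hj c hc with rfl | rfl
    · exact absurd hs.1 (by omega)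
    · exact absurd hs.1 (by omega)
  · intro j hj c hc
    rcases h j hj c hc with rfl | rfl
    · exact h0
    · exact h1

/-- the family with two blocks -/
def F2 (l : List ℕ) : ℕ → List ℕ := fun j => if j = 0 then [1] else l

theorem f2_two {l : List ℕ} (h : ∀ c ∈ l, c = 0 ∨ c = 1) : Two01 1 (F2 l) := by
  intro j _ c hc
  unfold F2 at hc
  by_cases hj : j = 0
  · rw [if_pos hj, List.mem_singleton] at hc
    exact Or.inr hc
  · rw [if_neg hj] at hc
    exact h c hc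

theorem f2_ok {l : List ℕ} (h : ∀ c ∈ l, c = 0 ∨ c = 1) (h0 : 2 ≤ l.count 0)
    (h1 : 1 ≤ l.count 1) : OkB 1 (F2 l) := by
  apply okb_of (f2_two h)
  · unfold deg
    rw [Finset.sum_range_succ, Finset.sum_range_one]
    show 2 ≤ [1].count 0 + l.count 0
    have : [1].count 0 = 0 := by decide
    omega
  · unfold deg
    rw [Finset.sum_range_succ, Finset.sum_range_one]
    show 2 ≤ [1].count 1 + l.count 1
    have : [1].count 1 = 1 := by decide
    omega

theorem hs1 {β : FIC} (hB : HB β) (l l' : List ℕ) (h : ∀ c ∈ l, c = 0 ∨ c = 1)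
    (h' : ∀ c ∈ l', c = 0 ∨ c = 1) (c0 : 2 ≤ l.count 0) (c0' : 2 ≤ l'.count 0)
    (c1 : l.count 1 = 1) (c1' : l'.count 1 = 1)
    (hs : (Fst false l ↔ Fst false l') ∧ (Fst true l ↔ Fst true l')) :
    RR β (1 :: 2 :: l) (1 :: 2 :: l') := by
  refine hB.hst 1 (F2 l) (F2 l') (f2_ok h c0 (by omega)) (f2_ok h' c0' (by omega)) (f2_two h)
    (f2_two h') ?_ ?_ ?_
  · intro j _
    unfold ty F2
    by_cases hj : j = 0
    · left; rw [if_pos hj, if_pos hj]
    · right; rw [if_neg hj, if_neg hj]; exact ⟨c0, c0'⟩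
  · intro j _
    unfold ty F2
    by_cases hj : j = 0
    · left; rw [if_pos hj, if_pos hj]
    · left; rw [if_neg hj, if_neg hj, c1, c1']
  · intro i _ _
    unfold F2
    by_cases hj : i = 0
    · rw [if_pos hj, if_pos hj]; exact ⟨Iff.rfl, Iff.rfl⟩
    · rw [if_neg hj, if_neg hj]; exact hs

theorem fstf {l : List ℕ} : Fst false l ↔ ¬ List.Sublist [1, 0] l := Iff.rfl

theorem fstt {l : List ℕ} : Fst true l ↔ ¬ List.Sublist [0, 1] l := Iff.rfl

theorem cA {β : FIC} (hB : HB β) : RR β [1, 2, 0, 0, 0, 1] [1, 2, 0, 0, 1] :=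
  hs1 hB [0, 0, 0, 1] [0, 0, 1] (by decide) (by decide) (by decide) (by decide) (by decide)
    (by decide) ⟨by rw [fstf, fstf]; decide, by rw [fstt, fstt]; decide⟩

theorem cB {β : FIC} (hB : HB β) : RR β [1, 2, 0, 0, 1, 0] [1, 2, 0, 1, 0] :=
  hs1 hB [0, 0, 1, 0] [0, 1, 0] (by decide) (by decide) (by decide) (by decide) (by decide)
    (by decide) ⟨by rw [fstf, fstf]; decide, by rw [fstt, fstt]; decide⟩

theorem cC {β : FIC} (hB : HB β) : RR β [1, 2, 0, 0, 0, 0, 0, 0, 1] [1, 2, 0, 0, 1] :=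
  hs1 hB [0, 0, 0, 0, 0, 0, 1] [0, 0, 1] (by decide) (by decide) (by decide) (by decide)
    (by decide) (by decide) ⟨by rw [fstf, fstf]; decide, by rw [fstt, fstt]; decide⟩

theorem cD {β : FIC} (hB : HB β) : RR β [1, 2, 0, 0, 0, 0, 0, 1, 0] [1, 2, 0, 1, 0] :=
  hs1 hB [0, 0, 0, 0, 0, 1, 0] [0, 1, 0] (by decide) (by decide) (by decide) (by decide)
    (by decide) (by decide) ⟨by rw [fstf, fstf]; decide, by rw [fstt, fstt]; decide⟩

theorem cE {β : FIC} (hB : HB β) : RR β [1, 2, 0, 0, 1, 0, 0] [1, 2, 0, 1, 0] :=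
  hs1 hB [0, 0, 1, 0, 0] [0, 1, 0] (by decide) (by decide) (by decide) (by decide)
    (by decide) (by decide) ⟨by rw [fstf, fstf]; decide, by rw [fstt, fstt]; decide⟩

theorem n4e (hNPH : NphStmt) (hNCX : NcxStmt) (hNCO : NcoStmt) : N4eStmt := by
  intro β hB hI hM hJ
  by_contra hC
  have hG : ¬ Oh β Bit.G := by
    intro hG
    apply hC
    have hab : Ab 1 (FC.ofFIC β) 1 (wo 0 (ty (F2 [0, 0, 1]) 0)) 0 := by
      have hG' : (FC.ofFIC β).R 1 (v2 0 2) (ad 1 (v2 0 2) 0) := hG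
      exact (FC.ofFIC β).ext (by decide) (by decide) hG'
    exact hNCO β hB hI 1 (F2 [0, 0, 1]) (F2 [0, 1, 0]) 0 1 0
      (f2_ok (by decide) (by decide) (by decide)) (f2_ok (by decide) (by decide) (by decide))
      (f2_two (by decide)) (f2_two (by decide)) (by unfold Sh; decide) (by unfold Sh; decide)
      (Or.inl ⟨rfl, rfl⟩) (by decide) (by decide) (by decide) (by decide) hab
  have hE : ¬ Oh β Bit.E := by
    intro hE
    apply hC
    have h1 : RR β [0, 0, 2] [0, 0, 2, 0, 0] := hE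
    have h2 : RR β [0, 0, 1] [0, 0, 1, 0, 0] := h1.sub (fun c => if c = 2 then [1] else [c])
    have h3 : RR β [1, 2, 0, 0, 1] [1, 2, 0, 0, 1, 0, 0] := (RR.refl (β := β) [1, 2]).append h2
    exact β.trans h3 (cE hB)
  have hc1 : Clo β 3 (cd4 Cd.z Cd.one Cd.one Cd.one) := by
    refine hNCX β hB hI [8, 10] 3 _ ?_ (by decide +kernel)
    intro x hx
    simp only [List.mem_cons, List.not_mem_nil, or_false] at hx
    rcases hx with rfl | rfl
    · left; rfl
    · right; right; right; right; right; right; exact ⟨rfl, hJ⟩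
  have hc2 : Clo β 3 (cd4 Cd.one Cd.z Cd.z Cd.one) := by
    refine hNCX β hB hI [8] 3 _ ?_ (by decide +kernel)
    intro x hx
    left
    exact List.mem_singleton.1 hx
  have hc3 : Clo β 3 (cd4 Cd.z Cd.any Cd.any Cd.pos) := by
    refine hNCX β hB hI [8, 10, 2, 0] 3 _ ?_ (by decide +kernel)
    intro x hx
    simp only [List.mem_cons, List.not_mem_nil, or_false] at hx
    rcases hx with rfl | rfl | rfl | rfl
    · left; rfl
    · right; right; right; right; right; right; exact ⟨rfl, hJ⟩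
    · right; right; right; left; exact ⟨rfl, hG⟩
    · right; left; exact ⟨rfl, hE⟩
  rcases hNPH β hB hI hM 3 3 (cd4 Cd.z Cd.one Cd.one Cd.one) (cd4 Cd.one Cd.z Cd.z Cd.one)
    (cd4 Cd.z Cd.any Cd.any Cd.pos) (cd4 Cd.one Cd.z Cd.z Cd.one) false (v4 0 2 2 2)
    (v4 0 1 1 1) (v4 1 0 0 1) (v4 1 0 0 1) (by decide +kernel) (by decide) (by decide)
    (by decide) (by decide) hc1 hc2 hc3 hc2 with h | h
  · apply hC
    have h1 : RR β [1, 2, 0, 3, 0, 4, 0, 1] [1, 2, 0, 3, 0, 4, 1, 0] := h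
    have h2 : RR β [1, 2, 0, 0, 0, 1] [1, 2, 0, 0, 1, 0] :=
      h1.filter (fun c => decide (c ≤ 2))
    exact β.trans (β.trans (β.symm (cA hB)) h2) (cB hB)
  · apply hC
    have h1 : RR β [1, 2, 0, 0, 3, 0, 0, 4, 0, 0, 1] [1, 2, 0, 0, 3, 0, 0, 4, 0, 1, 0] := h
    have h2 : RR β [1, 2, 0, 0, 0, 0, 0, 0, 1] [1, 2, 0, 0, 0, 0, 0, 1, 0] :=
      h1.filter (fun c => decide (c ≤ 2))
    exact β.trans (β.trans (β.symm (cC hB)) h2) (cD hB)

end Pool.Agent.MWN.H30E
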